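import Pool.Agent.N435.Irr

/-!
# Union-closed families generated by few arbitrary sets and many pairwise disjoint sets

Linear bound, part 1: the fibres of `M ↦ M ∪ p`.
-/

set_option autoImplicit false
set_option linter.unusedSectionVars false

namespace Pool.Agent.N188.UC

open Finset
open scoped Classical
open Pool.Agent.N435 (Sys hubs touched Mt)

variable {α : Type*} [DecidableEq α]

/-- the members not containing the block `p` -/
noncomputable def Av (F : Finset (Finset α)) (p : Finset α) : Finset (Finset α) :=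
  F.filter (fun M => ¬ p ⊆ M)

/-- the members containing the block `p` -/
noncomputable def Fu (F : Finset (Finset α)) (p : Finset α) : Finset (Finset α) :=
  F.filter (fun M => p ⊆ M)

/-- the members which are not maximal in their fibre -/
noncomputable def X (F : Finset (Finset α)) (p : Finset α) : Finset (Finset α) :=
  (Av F p).filter (fun M => ∃ N ∈ Av F p, M ⊂ N ∧ N \ M ⊆ p)

noncomputable def z (F : Finset (Finset α)) (p : Finset α) : ℕ := (X F p).card

/-- the maximal members avoiding `x` -/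
noncomputable def Mx (F : Finset (Finset α)) (p : Finset α) (x : α) : Finset (Finset α) :=
  (Av F p).filter (fun M => x ∉ M ∧ M ∉ X F p)

noncomputable def Im (F : Finset (Finset α)) (p : Finset α) (x : α) : Finset (Finset α) :=
  (Mx F p x).image (fun M => M ∪ p)

/-- the members containing `x` but not `p` -/
noncomputable def Ax (F : Finset (Finset α)) (p : Finset α) (x : α) : Finset (Finset α) :=
  (Av F p).filter (fun M => x ∈ M)

variable {F : Finset (Finset α)} {p : Finset α} {x : α}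

theorem mem_Av {M : Finset α} : M ∈ Av F p ↔ M ∈ F ∧ ¬ p ⊆ M := by
  simp [Av]

theorem mem_Fu {M : Finset α} : M ∈ Fu F p ↔ M ∈ F ∧ p ⊆ M := by
  simp [Fu]

theorem mem_X {M : Finset α} : M ∈ X F p ↔ (M ∈ F ∧ ¬ p ⊆ M) ∧
    ∃ N ∈ F, ¬ p ⊆ N ∧ M ⊂ N ∧ N \ M ⊆ p := by
  simp only [X, Av, mem_filter]
  constructor
  · rintro ⟨h, N, ⟨hN, hN'⟩, h2, h3⟩
    exact ⟨h, N, hN, hN', h2, h3⟩
  · rintro ⟨h, N, hN, hN', h2, h3⟩
    exact ⟨h, N, ⟨hN, hN'⟩, h2, h3⟩

theorem mem_Mx {M : Finset α} : M ∈ Mx F p x ↔ (M ∈ F ∧ ¬ p ⊆ M) ∧ x ∉ M ∧ M ∉ X F p := by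
  simp [Mx, Av]

theorem mem_Ax {M : Finset α} : M ∈ Ax F p x ↔ (M ∈ F ∧ ¬ p ⊆ M) ∧ x ∈ M := by
  simp [Ax, Av]

/-- a maximal member avoiding `x` contains every member avoiding `x` of its fibre -/
theorem Mx_max (uc : ∀ S ∈ F, ∀ T ∈ F, S ∪ T ∈ F) (hx : x ∈ p) {M N : Finset α}
    (hM : M ∈ Mx F p x) (hN : N ∈ F) (hxN : x ∉ N) (hsub : N ⊆ M ∪ p) : N ⊆ M := by
  rw [mem_Mx] at hM
  by_contra hcon
  apply hM.2.2
  rw [mem_X]
  refine ⟨hM.1, M ∪ N, uc M hM.1.1 N hN, ?_, ?_, ?_⟩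
  · intro h
    rcases mem_union.1 (h hx) with h' | h'
    · exact hM.2.1 h'
    · exact hxN h'
  · refine ⟨subset_union_left, fun h => hcon (subset_union_right.trans h)⟩
  · intro y hy
    rw [mem_sdiff, mem_union] at hy
    rcases hy.1 with h' | h'
    · exact absurd h' hy.2
    · rcases mem_union.1 (hsub h') with h'' | h''
      · exact absurd h'' hy.2
      · exact h''

theorem Mx_inj (uc : ∀ S ∈ F, ∀ T ∈ F, S ∪ T ∈ F) (hx : x ∈ p) {M N : Finset α}
    (hM : M ∈ Mx F p x) (hN : N ∈ Mx F p x) (h : M ∪ p = N ∪ p) : M = N := by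
  have hM' := mem_Mx.1 hM
  have hN' := mem_Mx.1 hN
  apply subset_antisymm
  · exact Mx_max uc hx hN hM'.1.1 hM'.2.1 (h ▸ subset_union_left)
  · exact Mx_max uc hx hM hN'.1.1 hN'.2.1 (h ▸ subset_union_left)

theorem Im_subset (uc : ∀ S ∈ F, ∀ T ∈ F, S ∪ T ∈ F) (hp : p ∈ F) : Im F p x ⊆ Fu F p := by
  intro M hM
  obtain ⟨N, hN, rfl⟩ := mem_image.1 hM
  rw [mem_Fu]
  exact ⟨uc N (mem_Mx.1 hN).1.1 p hp, subset_union_right⟩

theorem Im_card (uc : ∀ S ∈ F, ∀ T ∈ F, S ∪ T ∈ F) (hx : x ∈ p) :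
    (Im F p x).card = (Mx F p x).card := by
  apply card_image_of_injOn
  intro M hM N hN h
  exact Mx_inj uc hx (mem_coe.1 hM) (mem_coe.1 hN) h

/-- The basic inequality. -/
theorem bad_le (uc : ∀ S ∈ F, ∀ T ∈ F, S ∪ T ∈ F) (hp : p ∈ F) (hx : x ∈ p)
    (H : 2 * (F.filter (fun S => x ∈ S)).card ≤ F.card) :
    (Ax F p x).card + (Fu F p \ Im F p x).card ≤ z F p := by
  have e1 : (F.filter (fun S => x ∈ S)).card = (Ax F p x).card + (Fu F p).card := by
    rw [← card_filter_add_card_filter_not (s := F.filter (fun S => x ∈ S))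
      (p := fun S => ¬ p ⊆ S)]
    congr 1
    · congr 1
      ext S
      simp only [Ax, Av, mem_filter]
      tauto
    · congr 1
      ext S
      simp only [Fu, mem_filter, not_not]
      constructor
      · rintro ⟨⟨a, b⟩, c⟩; exact ⟨a, c⟩
      · rintro ⟨a, c⟩; exact ⟨⟨a, c hx⟩, c⟩
  have e2 : (F.filter (fun S => ¬ x ∈ S)).card ≤ (Mx F p x).card + z F p := by
    have hsub : F.filter (fun S => ¬ x ∈ S) ⊆ Mx F p x ∪ X F p := by
      intro S hS
      rw [mem_filter] at hS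
      rw [mem_union]
      by_cases h : S ∈ X F p
      · exact Or.inr h
      · left
        rw [mem_Mx]
        exact ⟨⟨hS.1, fun h' => hS.2 (h' hx)⟩, hS.2, h⟩
    exact (card_le_card hsub).trans (card_union_le _ _)
  have e3 := card_filter_add_card_filter_not (s := F) (fun S => x ∈ S)
  have e4 := Im_card (F := F) uc hx
  have e5 : (Fu F p \ Im F p x).card + (Im F p x).card = (Fu F p).card :=
    card_sdiff_add_card_eq_card (Im_subset uc hp)
  omega

/-- the number of the members containing a set `k` meeting the block partially -/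
theorem nu_le (uc : ∀ S ∈ F, ∀ T ∈ F, S ∪ T ∈ F) (hp : p ∈ F)
    (H : ∀ y ∈ p, 2 * (F.filter (fun S => y ∈ S)).card ≤ F.card) {k : Finset α} (hk : k ∈ F)
    (hk1 : ¬ Disjoint p k) (hk2 : ¬ p ⊆ k) :
    (F.filter (fun S => k ⊆ S)).card ≤ 3 * z F p := by
  obtain ⟨y, hyp, hyk⟩ := not_disjoint_iff.1 hk1
  obtain ⟨w, hwp, hwk⟩ := not_subset.1 hk2
  have a1 := bad_le uc hp hyp (H y hyp)
  have a2 := bad_le uc hp hwp (H w hwp)
  have hsub : F.filter (fun S => k ⊆ S) ⊆
      Ax F p y ∪ ((Fu F p \ Im F p w) ∪ (Ax F p y).image (fun S => S ∪ p)) := by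
    intro S hS
    rw [mem_filter] at hS
    by_cases hpS : p ⊆ S
    · apply mem_union_right
      by_cases him : S ∈ Im F p w
      · apply mem_union_right
        obtain ⟨N, hN, hNS⟩ := mem_image.1 him
        have hN' := mem_Mx.1 hN
        have hkN : k ⊆ N := Mx_max uc hwp hN hk hwk (by
          have : N ∪ p = S := hNS
          rw [this]; exact hS.2)
        rw [mem_image]
        exact ⟨N, mem_Ax.2 ⟨hN'.1, hkN hyk⟩, hNS⟩
      · apply mem_union_left
        rw [mem_sdiff, mem_Fu]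
        exact ⟨⟨hS.1, hpS⟩, him⟩
    · apply mem_union_left
      exact mem_Ax.2 ⟨⟨hS.1, hpS⟩, hS.2 hyk⟩
  have c0 := card_le_card hsub
  have c1 := card_union_le (Ax F p y) ((Fu F p \ Im F p w) ∪ (Ax F p y).image (fun S => S ∪ p))
  have c2 := card_union_le (Fu F p \ Im F p w) ((Ax F p y).image (fun S => S ∪ p))
  have c3 : ((Ax F p y).image (fun S => S ∪ p)).card ≤ (Ax F p y).card := card_image_le
  omega

/-- a block met partially by a member has a positive charge -/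
theorem z_pos (uc : ∀ S ∈ F, ∀ T ∈ F, S ∪ T ∈ F) (hp : p ∈ F)
    (H : ∀ y ∈ p, 2 * (F.filter (fun S => y ∈ S)).card ≤ F.card) {k : Finset α} (hk : k ∈ F)
    (hk1 : ¬ Disjoint p k) (hk2 : ¬ p ⊆ k) : 0 < z F p := by
  obtain ⟨y, hyp, hyk⟩ := not_disjoint_iff.1 hk1
  have a1 := bad_le uc hp hyp (H y hyp)
  have : 0 < (Ax F p y).card := card_pos.2 ⟨k, mem_Ax.2 ⟨⟨hk, hk2⟩, hyk⟩⟩
  omega

/-! ### labels -/

/-- the candidates for the label of `(p, M)` -/
noncomputable def Cd (G : Finset (Finset α)) (p M : Finset α) : Finset (Finset α) :=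
  G.filter (fun k => (k \ M).Nonempty ∧ k \ M ⊆ p ∧ ¬ p ⊆ M ∪ k)

theorem mem_Cd {G : Finset (Finset α)} {p M k : Finset α} :
    k ∈ Cd G p M ↔ k ∈ G ∧ (k \ M).Nonempty ∧ k \ M ⊆ p ∧ ¬ p ⊆ M ∪ k := by
  simp [Cd]

theorem Cd_nonempty {G : Finset (Finset α)} (gen : ∀ S ∈ F, ∀ x ∈ S, ∃ q ∈ G, x ∈ q ∧ q ⊆ S)
    {M : Finset α} (hM : M ∈ X F p) : (Cd G p M).Nonempty := by
  rw [mem_X] at hM
  obtain ⟨⟨hMF, hpM⟩, N, hN, hpN, hMN, hNM⟩ := hM
  obtain ⟨x, hxN, hxM⟩ := exists_of_ssubset hMN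
  obtain ⟨q, hq, hxq, hqN⟩ := gen N hN x hxN
  refine ⟨q, mem_Cd.2 ⟨hq, ⟨x, mem_sdiff.2 ⟨hxq, hxM⟩⟩, ?_, ?_⟩⟩
  · exact (sdiff_subset_sdiff hqN Subset.rfl).trans hNM
  · intro h
    exact hpN (h.trans (union_subset hMN.1 hqN))

/-- the label of `(p, M)`: a candidate `k` with `k \ M` as small as possible -/
noncomputable def lab (G : Finset (Finset α)) (p M : Finset α) : Finset α :=
  if h : (Cd G p M).Nonempty then
    Classical.choose (exists_min_image (Cd G p M) (fun k => (k \ M).card) h) else ∅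

theorem lab_spec {G : Finset (Finset α)} {p M : Finset α} (h : (Cd G p M).Nonempty) :
    lab G p M ∈ Cd G p M ∧ ∀ q ∈ Cd G p M, (lab G p M \ M).card ≤ (q \ M).card := by
  unfold lab
  rw [dif_pos h]
  exact Classical.choose_spec (exists_min_image (Cd G p M) (fun k => (k \ M).card) h)

end Pool.Agent.N188.UC
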