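import Pool.Agent.N188.UC1

/-!
# Linear bound, part 2: the pairs with a fixed label, type A
-/

set_option autoImplicit false
set_option linter.unusedSectionVars false

namespace Pool.Agent.N188.UC

open Finset
open scoped Classical
open Pool.Agent.N435 (Sys hubs touched Mt)

variable {α : Type*} [DecidableEq α] {F G P : Finset (Finset α)}

/-- the blocks met partially by `k` -/
noncomputable def Opt (P : Finset (Finset α)) (k : Finset α) : Finset (Finset α) :=
  P.filter (fun p => ¬ Disjoint p k ∧ ¬ p ⊆ k)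

/-- the pairs with label `k` -/
noncomputable def T (F G P : Finset (Finset α)) (k : Finset α) :
    Finset (Finset α × Finset α) :=
  (P ×ˢ F).filter (fun t => t.2 ∈ X F t.1 ∧ lab G t.1 t.2 = k)

/-- the blocks met partially by `k` and not contained in `M` -/
noncomputable def NN (P : Finset (Finset α)) (k M : Finset α) : Finset (Finset α) :=
  (Opt P k).filter (fun p => ¬ p ⊆ M)

/-- an element of `N` with the smallest value -/
noncomputable def arg (f : Finset α → ℕ) (N : Finset (Finset α)) : Finset α :=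
  if h : N.Nonempty then Classical.choose (exists_min_image N f h) else ∅

theorem arg_spec {f : Finset α → ℕ} {N : Finset (Finset α)} (h : N.Nonempty) :
    arg f N ∈ N ∧ ∀ q ∈ N, f (arg f N) ≤ f q := by
  unfold arg
  rw [dif_pos h]
  exact Classical.choose_spec (exists_min_image N f h)

/-- the first block of `M` -/
noncomputable def bb (F P : Finset (Finset α)) (k M : Finset α) : Finset α :=
  arg (z F) (NN P k M)

theorem mem_Opt {k p : Finset α} : p ∈ Opt P k ↔ p ∈ P ∧ ¬ Disjoint p k ∧ ¬ p ⊆ k := by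
  simp [Opt]

theorem mem_NN {k M p : Finset α} :
    p ∈ NN P k M ↔ (p ∈ P ∧ ¬ Disjoint p k ∧ ¬ p ⊆ k) ∧ ¬ p ⊆ M := by
  simp [NN, Opt]

/-- what we know about a pair with label `k` -/
structure TF (F G P : Finset (Finset α)) (k : Finset α) (t : Finset α × Finset α) : Prop where
  hp : t.1 ∈ P
  hM : t.2 ∈ F
  hX : t.2 ∈ X F t.1
  hk : k ∈ G
  ne : (k \ t.2).Nonempty
  sub : k \ t.2 ⊆ t.1
  np : ¬ t.1 ⊆ t.2 ∪ k
  mn : ∀ q ∈ Cd G t.1 t.2, (k \ t.2).card ≤ (q \ t.2).card

theorem T_spec (h : Sys F G P) {k : Finset α} {t : Finset α × Finset α} (ht : t ∈ T F G P k) :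
    TF F G P k t := by
  simp only [T, mem_filter, mem_product] at ht
  obtain ⟨⟨h1, h2⟩, h3, h4⟩ := ht
  obtain ⟨h5, h6⟩ := lab_spec (Cd_nonempty (G := G) h.gen h3)
  rw [h4] at h5 h6
  rw [mem_Cd] at h5
  exact ⟨h1, h2, h3, h5.1, h5.2.1, h5.2.2.1, h5.2.2.2, h6⟩

theorem TF.opt {k : Finset α} {t : Finset α × Finset α} (h : TF F G P k t) : t.1 ∈ Opt P k := by
  rw [mem_Opt]
  refine ⟨h.hp, ?_, ?_⟩
  · obtain ⟨x, hx⟩ := h.ne
    exact not_disjoint_iff.2 ⟨x, h.sub hx, (mem_sdiff.1 hx).1⟩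
  · intro h'
    exact h.np (h'.trans subset_union_right)

theorem TF.nn {k : Finset α} {t : Finset α × Finset α} (h : TF F G P k t) :
    t.1 ∈ NN P k t.2 := by
  unfold NN
  rw [mem_filter]
  exact ⟨h.opt, fun h' => h.np (h'.trans subset_union_left)⟩

theorem TF.bb_mem {k : Finset α} {t : Finset α × Finset α} (h : TF F G P k t) :
    bb F P k t.2 ∈ NN P k t.2 := (arg_spec ⟨_, h.nn⟩).1

theorem TF.bb_opt {k : Finset α} {t : Finset α × Finset α} (h : TF F G P k t) :
    bb F P k t.2 ∈ Opt P k := (mem_filter.1 h.bb_mem).1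

theorem TF.bb_min {k : Finset α} {t : Finset α × Finset α} (h : TF F G P k t) :
    ∀ q ∈ NN P k t.2, z F (bb F P k t.2) ≤ z F q := (arg_spec ⟨_, h.nn⟩).2

/-- two blocks sharing a point are equal -/
theorem block_eq (h : Sys F G P) {p q : Finset α} (hp : p ∈ P) (hq : q ∈ P) {x : α}
    (hx : x ∈ p) (hx' : x ∈ q) : p = q := by
  by_contra hne
  exact Finset.disjoint_left.1 (h.disj p hp q hq hne) hx hx'

theorem T_inj (h : Sys F G P) {k : Finset α} {t s : Finset α × Finset α}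
    (ht : TF F G P k t) (hs : TF F G P k s) (hts : t.2 = s.2) : t = s := by
  obtain ⟨x, hx⟩ := ht.ne
  have h1 : x ∈ t.1 := ht.sub hx
  have h2 : x ∈ s.1 := hs.sub (hts ▸ hx)
  exact Prod.ext (block_eq h ht.hp hs.hp h1 h2) hts

/-- the blocks other than `i(M)` see no difference between `M` and `M ∪ k` -/
theorem NN_eq (h : Sys F G P) {k : Finset α} {t : Finset α × Finset α} (ht : TF F G P k t) :
    NN P k t.2 = (Opt P k).filter (fun p => ¬ p ⊆ t.2 ∪ k) := by
  unfold NN
  ext p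
  simp only [mem_filter]
  apply and_congr_right
  intro hp
  rw [mem_Opt] at hp
  by_cases hpt : p = t.1
  · rw [hpt]
    exact ⟨fun _ => ht.np, fun h1 h2 => h1 (h2.trans subset_union_left)⟩
  · constructor
    · intro h1 h2
      apply h1
      intro x hx
      rcases mem_union.1 (h2 hx) with h' | h'
      · exact h'
      · by_contra hxM
        exact hpt (block_eq h hp.1 ht.hp hx (ht.sub (mem_sdiff.2 ⟨h', hxM⟩)))
    · exact fun h1 h2 => h1 (h2.trans subset_union_left)

/-- type A: half of the injectivity -/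
theorem A_half (h : Sys F G P) {k : Finset α} {t s : Finset α × Finset α}
    (ht : TF F G P k t) (hs : TF F G P k s) (hts : t.2 ∪ k = s.2 ∪ k) {x : α} (hxk : x ∈ k)
    (hxt : x ∉ t.2) (hxs : x ∉ s.2) : s.2 ⊆ t.2 := by
  intro y hy
  by_contra hyt
  obtain ⟨q, hq, hyq, hqs⟩ := h.gen s.2 hs.hM y hy
  have hqk : q ⊆ t.2 ∪ k := by
    rw [hts]
    exact hqs.trans subset_union_left
  have hsub : q \ t.2 ⊆ k \ t.2 := by
    intro w hw
    rw [mem_sdiff] at hw ⊢
    refine ⟨?_, hw.2⟩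
    rcases mem_union.1 (hqk hw.1) with h' | h'
    · exact absurd h' hw.2
    · exact h'
  have hcd : q ∈ Cd G t.1 t.2 := by
    rw [mem_Cd]
    refine ⟨hq, ⟨y, mem_sdiff.2 ⟨hyq, hyt⟩⟩, hsub.trans ht.sub, ?_⟩
    intro h'
    exact ht.np (h'.trans (union_subset subset_union_left hqk))
  have heq : q \ t.2 = k \ t.2 := eq_of_subset_of_card_le hsub (ht.mn q hcd)
  have hxq : x ∈ q \ t.2 := by
    rw [heq]
    exact mem_sdiff.2 ⟨hxk, hxt⟩
  exact hxs (hqs (mem_sdiff.1 hxq).1)

theorem A_inj (h : Sys F G P) {k : Finset α} {t s : Finset α × Finset α}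
    (ht : TF F G P k t) (hs : TF F G P k s) (hts : t.2 ∪ k = s.2 ∪ k) (pt : Finset α → α)
    (hpt : ∀ p ∈ Opt P k, pt p ∈ k) (h1 : pt (bb F P k t.2) ∉ t.2)
    (h2 : pt (bb F P k s.2) ∉ s.2) : t = s := by
  have hN : NN P k t.2 = NN P k s.2 := by rw [NN_eq h ht, NN_eq h hs, hts]
  have hb : bb F P k t.2 = bb F P k s.2 := by unfold bb; rw [hN]
  rw [← hb] at h2
  have hk := hpt _ ht.bb_opt
  exact T_inj h ht hs (subset_antisymm (A_half h hs ht hts.symm hk h2 h1)
    (A_half h ht hs hts hk h1 h2))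

theorem A_card (h : Sys F G P) {k : Finset α} (hk : k ∈ G) (pt : Finset α → α)
    (hpt : ∀ p ∈ Opt P k, pt p ∈ k) :
    ((T F G P k).filter (fun t => pt (bb F P k t.2) ∉ t.2)).card ≤
      (F.filter (fun S => k ⊆ S)).card := by
  apply card_le_card_of_injOn (fun t => t.2 ∪ k)
  · intro t ht
    rw [mem_coe, mem_filter] at ht
    have h1 := T_spec h ht.1
    rw [mem_coe, mem_filter]
    exact ⟨h.uc _ h1.hM _ (h.gf hk), subset_union_right⟩
  · intro t ht s hs hts
    rw [mem_coe, mem_filter] at ht hs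
    exact A_inj h (T_spec h ht.1) (T_spec h hs.1) hts pt hpt ht.2 hs.2

/-- the cost of the pairs of type A -/
theorem A_cost (h : Sys F G P)
    (H : ∀ p ∈ P, ∀ y ∈ p, 2 * (F.filter (fun S => y ∈ S)).card ≤ F.card)
    {k : Finset α} (hk : k ∈ G) (pt : Finset α → α) (hpt : ∀ p ∈ Opt P k, pt p ∈ k) :
    ∑ t ∈ (T F G P k).filter (fun t => pt (bb F P k t.2) ∉ t.2), (1 : ℝ) / z F t.1 ≤ 3 := by
  set TA := (T F G P k).filter (fun t => pt (bb F P k t.2) ∉ t.2) with hTA
  set ν := (F.filter (fun S => k ⊆ S)).card with hν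
  have h1 : TA.card ≤ ν := A_card h hk pt hpt
  rcases Nat.eq_zero_or_pos TA.card with h0 | hpos
  · rw [card_eq_zero.1 h0, sum_empty]
    norm_num
  have hνp : 0 < ν := by omega
  have hνp' : (0 : ℝ) < ν := by exact_mod_cast hνp
  have h2 : ∀ t ∈ TA, (1 : ℝ) / z F t.1 ≤ 3 / ν := by
    intro t ht
    rw [hTA, mem_filter] at ht
    have h3 := T_spec h ht.1
    have h4 := mem_Opt.1 h3.opt
    have h5 := nu_le h.uc (h.gf (h.pg h3.hp)) (H _ h3.hp) (h.gf hk) h4.2.1 h4.2.2
    have h6 : (ν : ℝ) ≤ 3 * z F t.1 := by exact_mod_cast h5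
    have h7 : (0 : ℝ) < z F t.1 := by linarith
    rw [div_le_div_iff₀ h7 hνp']
    linarith
  calc ∑ t ∈ TA, (1 : ℝ) / z F t.1 ≤ ∑ t ∈ TA, 3 / (ν : ℝ) := sum_le_sum h2
    _ = TA.card * (3 / ν) := by rw [sum_const, nsmul_eq_mul]
    _ ≤ ν * (3 / ν) := by
      apply mul_le_mul_of_nonneg_right _ (by positivity)
      exact_mod_cast h1
    _ = 3 := by field_simp

end Pool.Agent.N188.UC
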