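import Pool.Agent.N188.UC2

/-!
# Linear bound, part 3: type B, the toggles
-/

set_option autoImplicit false
set_option linter.unusedSectionVars false

namespace Pool.Agent.N188.UC

open Finset
open scoped Classical
open Pool.Agent.N435 (Sys hubs touched Mt)

variable {α : Type*} [DecidableEq α] {F G P : Finset (Finset α)}

/-- the toggle of `S` at the block `p`: the maximal member avoiding `x` below `S` -/
noncomputable def tog (F : Finset (Finset α)) (p : Finset α) (x : α) (S : Finset α) : Finset α :=
  if h : ∃ N ∈ Mx F p x, N ∪ p = S then Classical.choose h else ∅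

theorem tog_spec {p S : Finset α} {x : α} (h : S ∈ Im F p x) :
    tog F p x S ∈ Mx F p x ∧ tog F p x S ∪ p = S := by
  have h' : ∃ N ∈ Mx F p x, N ∪ p = S := by
    obtain ⟨N, hN, hNS⟩ := mem_image.1 h
    exact ⟨N, hN, hNS⟩
  unfold tog
  rw [dif_pos h']
  exact Classical.choose_spec h'

/-- the scale of a block -/
noncomputable def sc (F : Finset (Finset α)) (p : Finset α) : ℕ := Nat.log 2 (z F p)

/-- data at a label -/
structure Dat (F G P : Finset (Finset α)) (k : Finset α) (pt : Finset α → α)
    (c : ℕ → Finset α) : Prop where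
  sys : Sys F G P
  H : ∀ p ∈ P, ∀ y ∈ p, 2 * (F.filter (fun S => y ∈ S)).card ≤ F.card
  hk : k ∈ G
  ptp : ∀ p ∈ Opt P k, pt p ∈ p
  ptk : ∀ p ∈ Opt P k, pt p ∈ k
  cO : ∀ σ ∈ (Opt P k).image (sc F), c σ ∈ Opt P k
  cs : ∀ σ ∈ (Opt P k).image (sc F), sc F (c σ) = σ

/-- the scales at a label -/
noncomputable def SS (F P : Finset (Finset α)) (k : Finset α) : Finset ℕ := (Opt P k).image (sc F)

/-- the scales below `n` -/
noncomputable def SL (F P : Finset (Finset α)) (k : Finset α) (n : ℕ) : Finset ℕ :=
  (SS F P k).filter (fun σ => σ < n)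

/-- the union of the chosen blocks of the scales below `n` -/
noncomputable def UU (F P : Finset (Finset α)) (k : Finset α) (c : ℕ → Finset α) (n : ℕ) :
    Finset α := (SL F P k n).biUnion c

/-- the pairs of type B of scale `σ` -/
noncomputable def TB (F G P : Finset (Finset α)) (k : Finset α) (pt : Finset α → α) (σ : ℕ) :
    Finset (Finset α × Finset α) :=
  (T F G P k).filter (fun t => pt (bb F P k t.2) ∈ t.2 ∧ sc F (bb F P k t.2) = σ)

variable {k : Finset α} {pt : Finset α → α} {c : ℕ → Finset α}

theorem SL_succ_mem {n : ℕ} (hn : n ∈ SS F P k) : SL F P k (n + 1) = insert n (SL F P k n) := by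
  ext m
  simp only [SL, mem_filter, mem_insert]
  constructor
  · rintro ⟨h1, h2⟩
    rcases Nat.lt_succ_iff_lt_or_eq.1 h2 with h | h
    · exact Or.inr ⟨h1, h⟩
    · exact Or.inl h
  · rintro (h | ⟨h1, h2⟩)
    · rw [h]; exact ⟨hn, Nat.lt_succ_self n⟩
    · exact ⟨h1, by omega⟩

theorem SL_succ_not {n : ℕ} (hn : n ∉ SS F P k) : SL F P k (n + 1) = SL F P k n := by
  ext m
  simp only [SL, mem_filter]
  constructor
  · rintro ⟨h1, h2⟩
    refine ⟨h1, ?_⟩
    rcases Nat.lt_succ_iff_lt_or_eq.1 h2 with h | h
    · exact h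
    · exact absurd (h ▸ h1) hn
  · rintro ⟨h1, h2⟩
    exact ⟨h1, by omega⟩

theorem notMem_SL {n : ℕ} : n ∉ SL F P k n := by
  simp [SL]

theorem card_SL_succ_mem {n : ℕ} (hn : n ∈ SS F P k) :
    (SL F P k (n + 1)).card = (SL F P k n).card + 1 := by
  rw [SL_succ_mem hn, card_insert_of_notMem notMem_SL]

theorem UU_succ_mem {n : ℕ} (hn : n ∈ SS F P k) :
    UU F P k c (n + 1) = UU F P k c n ∪ c n := by
  unfold UU
  rw [SL_succ_mem hn, biUnion_insert, union_comm]

theorem UU_succ_not {n : ℕ} (hn : n ∉ SS F P k) : UU F P k c (n + 1) = UU F P k c n := by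
  unfold UU
  rw [SL_succ_not hn]

/-- a point of a block of scale at least `n` is not in the union of the blocks below `n` -/
theorem notMem_UU (h : Dat F G P k pt c) {n : ℕ} {p : Finset α} (hp : p ∈ P) (hs : n ≤ sc F p)
    {x : α} (hx : x ∈ p) : x ∉ UU F P k c n := by
  intro hcon
  obtain ⟨σ, hσ, hxσ⟩ := mem_biUnion.1 hcon
  simp only [SL, mem_filter] at hσ
  have h1 := h.cO σ hσ.1
  have h2 := h.cs σ hσ.1
  have h3 := block_eq h.sys hp (mem_Opt.1 h1).1 hx hxσ
  rw [← h3] at h2
  omega

theorem TB_T {σ : ℕ} {t : Finset α × Finset α} (ht : t ∈ TB F G P k pt σ) : t ∈ T F G P k :=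
  (mem_filter.1 ht).1

/-- the chosen blocks of smaller scale are full -/
theorem full (h : Dat F G P k pt c) {σ n : ℕ} {t : Finset α × Finset α}
    (ht : t ∈ TB F G P k pt σ) (hn : n ∈ SS F P k) (hnσ : n < σ) : c n ⊆ t.2 := by
  by_contra hcon
  have h1 := T_spec h.sys (TB_T ht)
  have h2 := h.cO n hn
  have h3 := h.cs n hn
  have h4 : c n ∈ NN P k t.2 := by
    unfold NN
    rw [mem_filter]
    exact ⟨h2, hcon⟩
  have h5 := h1.bb_min _ h4
  have h6 : sc F (bb F P k t.2) ≤ sc F (c n) := Nat.log_mono_right h5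
  have h7 := (mem_filter.1 ht).2.2
  omega

/-- the toggling process -/
theorem toggle (h : Dat F G P k pt c) (σ : ℕ) : ∀ n, n ≤ σ → ∃ W : Finset (Finset α),
    (∀ S ∈ W, S ∈ F ∧ ∃ t ∈ TB F G P k pt σ, S ∪ UU F P k c n = t.2) ∧
    2 ^ (SL F P k n).card * (TB F G P k pt σ).card ≤ W.card + (SL F P k n).card * 2 ^ (n + 1) := by
  intro n
  induction n with
  | zero =>
    intro _
    refine ⟨(TB F G P k pt σ).image (fun t => t.2), ?_, ?_⟩
    · intro S hS
      obtain ⟨t, ht, rfl⟩ := mem_image.1 hS
      exact ⟨(T_spec h.sys (TB_T ht)).hM, t, ht, by simp [UU, SL]⟩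
    · have h1 : ((TB F G P k pt σ).image (fun t => t.2)).card = (TB F G P k pt σ).card := by
        apply card_image_of_injOn
        intro t ht s hs hts
        exact T_inj h.sys (T_spec h.sys (TB_T (mem_coe.1 ht))) (T_spec h.sys (TB_T (mem_coe.1 hs)))
          hts
      rw [h1]
      simp [SL]
  | succ n ih =>
    intro hn
    obtain ⟨W, hW1, hW2⟩ := ih (by omega)
    by_cases hnS : n ∈ SS F P k
    · -- toggle at `c n`
      set q := c n with hq
      set x := pt q with hx
      have hqO : q ∈ Opt P k := h.cO n hnS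
      have hqs : sc F q = n := h.cs n hnS
      have hqP : q ∈ P := (mem_Opt.1 hqO).1
      have hxq : x ∈ q := h.ptp q hqO
      have hfullW : ∀ S ∈ W, q ⊆ S := by
        intro S hS
        obtain ⟨-, t, ht, htS⟩ := hW1 S hS
        have h1 : q ⊆ t.2 := full h ht hnS (by omega)
        intro y hy
        have h2 : y ∈ S ∪ UU F P k c n := by rw [htS]; exact h1 hy
        rcases mem_union.1 h2 with h' | h'
        · exact h'
        · exact absurd h' (notMem_UU h hqP hqs.ge hy)
      set W1 := W.filter (fun S => S ∈ Im F q x) with hW1d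
      have hb := bad_le h.sys.uc (h.sys.gf (h.sys.pg hqP)) hxq (h.H q hqP x hxq)
      have hzq : z F q < 2 ^ (n + 1) := by
        rw [← hqs]
        exact Nat.lt_pow_succ_log_self (by norm_num) _
      have hlost : W.card ≤ W1.card + 2 ^ (n + 1) := by
        have h1 := card_filter_add_card_filter_not (s := W) (fun S => S ∈ Im F q x)
        have h2 : (W.filter (fun S => ¬ S ∈ Im F q x)).card ≤ (Fu F q \ Im F q x).card := by
          apply card_le_card
          intro S hS
          rw [mem_filter] at hS
          rw [mem_sdiff, mem_Fu]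
          exact ⟨⟨(hW1 S hS.1).1, hfullW S hS.1⟩, hS.2⟩
        have h3 : W1.card = (W.filter (fun S => S ∈ Im F q x)).card := rfl
        omega
      have hdisj : Disjoint W1 (W1.image (tog F q x)) := by
        rw [Finset.disjoint_left]
        intro S hS hS'
        obtain ⟨R, hR, hRS⟩ := mem_image.1 hS'
        rw [hW1d, mem_filter] at hS hR
        have h1 := (tog_spec hR.2).1
        rw [mem_Mx] at h1
        rw [hRS] at h1
        exact h1.2.1 (hfullW S hS.1 hxq)
      have hcard : (W1 ∪ W1.image (tog F q x)).card = 2 * W1.card := by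
        rw [card_union_of_disjoint hdisj]
        have : (W1.image (tog F q x)).card = W1.card := by
          apply card_image_of_injOn
          intro S hS R hR hSR
          rw [mem_coe, hW1d, mem_filter] at hS hR
          have e1 := (tog_spec hS.2).2
          have e2 := (tog_spec hR.2).2
          rw [← e1, ← e2, hSR]
        omega
      refine ⟨W1 ∪ W1.image (tog F q x), ?_, ?_⟩
      · intro S hS
        rw [UU_succ_mem hnS]
        rcases mem_union.1 hS with hS | hS
        · rw [hW1d, mem_filter] at hS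
          obtain ⟨hSF, t, ht, htS⟩ := hW1 S hS.1
          refine ⟨hSF, t, ht, ?_⟩
          rw [← union_assoc, htS]
          exact union_eq_left.2 (full h ht hnS (by omega))
        · obtain ⟨R, hR, hRS⟩ := mem_image.1 hS
          rw [hW1d, mem_filter] at hR
          obtain ⟨hRF, t, ht, htR⟩ := hW1 R hR.1
          have e := tog_spec hR.2
          rw [hRS] at e
          refine ⟨(mem_Mx.1 e.1).1.1, t, ht, ?_⟩
          rw [← htR, ← e.2]
          ext y
          simp only [mem_union]
          tauto
      · rw [card_SL_succ_mem hnS, hcard]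
        have e1 : 2 ^ ((SL F P k n).card + 1) * (TB F G P k pt σ).card =
            2 * (2 ^ (SL F P k n).card * (TB F G P k pt σ).card) := by ring
        have e2 : ((SL F P k n).card + 1) * 2 ^ (n + 1 + 1) =
            2 * ((SL F P k n).card * 2 ^ (n + 1)) + 2 * 2 ^ (n + 1) := by ring
        rw [e1, e2]
        omega
    · refine ⟨W, ?_, ?_⟩
      · rw [UU_succ_not hnS]
        exact hW1
      · rw [SL_succ_not hnS]
        refine hW2.trans ?_
        gcongr
        · norm_num
        · omega

end Pool.Agent.N188.UC
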