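import Pool.Agent.N188.UC3

/-!
# Linear bound, part 4: type B, the toggled members of one scale
-/

set_option autoImplicit false
set_option linter.unusedSectionVars false

namespace Pool.Agent.N188.UC

open Finset
open scoped Classical
open Pool.Agent.N435 (Sys hubs touched Mt)

variable {α : Type*} [DecidableEq α] {F G P : Finset (Finset α)}
  {k : Finset α} {pt : Finset α → α} {c : ℕ → Finset α}

/-- the blocks of scale `σ` -/
noncomputable def BB (F P : Finset (Finset α)) (k : Finset α) (σ : ℕ) : Finset (Finset α) :=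
  (Opt P k).filter (fun p => sc F p = σ)

theorem card_sub {F A : Finset (Finset α)} (h : A ⊆ F) :
    A.card = ∑ R ∈ F, if R ∈ A then 1 else 0 := by
  rw [← card_filter, filter_mem_eq_inter, inter_eq_right.2 h]

/-- what we know about a toggled member `S` coming from the pair `t` -/
structure VF (F G P : Finset (Finset α)) (k : Finset α) (pt : Finset α → α) (c : ℕ → Finset α)
    (σ : ℕ) (S : Finset α) (t : Finset α × Finset α) : Prop where
  hS : S ∈ F
  ht : t ∈ TB F G P k pt σ
  eq : S ∪ UU F P k c σ = t.2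

theorem VF.bb_mem (h : Dat F G P k pt c) {σ : ℕ} {S : Finset α} {t : Finset α × Finset α}
    (hv : VF F G P k pt c σ S t) : bb F P k t.2 ∈ BB F P k σ := by
  unfold BB
  rw [mem_filter]
  exact ⟨(T_spec h.sys (TB_T hv.ht)).bb_opt, (mem_filter.1 hv.ht).2.2⟩

theorem VF.bb_Ax (h : Dat F G P k pt c) {σ : ℕ} {S : Finset α} {t : Finset α × Finset α}
    (hv : VF F G P k pt c σ S t) : S ∈ Ax F (bb F P k t.2) (pt (bb F P k t.2)) := by
  have h1 := T_spec h.sys (TB_T hv.ht)
  have h2 := mem_NN.1 h1.bb_mem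
  have h3 := (mem_filter.1 hv.ht).2
  rw [mem_Ax]
  refine ⟨⟨hv.hS, ?_⟩, ?_⟩
  · intro h'
    have e : S ⊆ t.2 := by
      rw [← hv.eq]
      exact subset_union_left
    exact h2.2 (h'.trans e)
  · have h4 : pt (bb F P k t.2) ∈ S ∪ UU F P k c σ := by
      rw [hv.eq]
      exact h3.1
    rcases mem_union.1 h4 with h' | h'
    · exact h'
    · exact absurd h' (notMem_UU h h2.1.1 h3.2.ge (h.ptp _ h1.bb_opt))

/-- the points of the other blocks of the scale are contained in `S` -/
theorem VF.pt_mem (h : Dat F G P k pt c) {σ : ℕ} {S : Finset α} {t : Finset α × Finset α}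
    (hv : VF F G P k pt c σ S t) {j : Finset α} (hj : j ∈ BB F P k σ) (hjt : j ≠ t.1) :
    pt j ∈ S := by
  unfold BB at hj
  rw [mem_filter] at hj
  have h1 := T_spec h.sys (TB_T hv.ht)
  have h2 := (mem_Opt.1 hj.1).1
  have h3 : pt j ∈ t.2 := by
    by_contra hcon
    exact hjt (block_eq h.sys h2 h1.hp (h.ptp j hj.1)
      (h1.sub (mem_sdiff.2 ⟨h.ptk j hj.1, hcon⟩)))
  rw [← hv.eq] at h3
  rcases mem_union.1 h3 with h' | h'
  · exact h'
  · exact absurd h' (notMem_UU h h2 hj.2.ge (h.ptp j hj.1))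

/-- the toggled member `tog S` at a block `j ≠ i(M)` -/
theorem tog_Ax (h : Dat F G P k pt c) {σ : ℕ} {S : Finset α} {t : Finset α × Finset α}
    (hv : VF F G P k pt c σ S t) {j : Finset α} (hj : j ∈ BB F P k σ)
    (him : S ∈ Im F j (pt j)) :
    tog F j (pt j) S ∈ Ax F (bb F P k t.2) (pt (bb F P k t.2)) := by
  obtain ⟨h1, h2⟩ := tog_spec him
  have h3 := mem_Ax.1 (hv.bb_Ax h)
  have h4 := mem_Mx.1 h1
  rw [mem_Ax]
  refine ⟨⟨h4.1.1, fun h' => h3.1.2 (h'.trans ?_)⟩, ?_⟩
  · rw [← h2]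
    simpa only [h2] using (subset_union_left : tog F j (pt j) S ⊆ tog F j (pt j) S ∪ j)
  · have h5 := h3.2
    rw [← h2] at h5
    rcases mem_union.1 h5 with h' | h'
    · simpa only [h2] using h'
    · exfalso
      have hb := hv.bb_mem h
      unfold BB at hb hj
      rw [mem_filter] at hb hj
      have h6 := block_eq h.sys (mem_Opt.1 hj.1).1 (mem_Opt.1 hb.1).1 h' (h.ptp _ hb.1)
      apply h3.1.2
      rw [← h6, ← h2]
      simpa only [h2] using (subset_union_right : j ⊆ tog F j (pt j) S ∪ j)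

/-- The number of the toggled members. -/
theorem V_card (h : Dat F G P k pt c) (σ : ℕ) (V : Finset (Finset α))
    (hV : ∀ S ∈ V, S ∈ F ∧ ∃ t ∈ TB F G P k pt σ, S ∪ UU F P k c σ = t.2) :
    V.card ≤ 4 * 2 ^ σ := by
  rcases V.eq_empty_or_nonempty with hVe | hVne
  · rw [hVe, card_empty]
    exact Nat.zero_le _
  have hV' : ∀ S ∈ V, ∃ t, VF F G P k pt c σ S t := by
    intro S hS
    obtain ⟨h1, t, ht, h2⟩ := hV S hS
    exact ⟨t, h1, ht, h2⟩
  choose! tt htt using hV'
  set B := BB F P k σ with hB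
  have hBP : ∀ j ∈ B, j ∈ P := by
    intro j hj
    rw [hB, BB, mem_filter] at hj
    exact (mem_Opt.1 hj.1).1
  have hBO : ∀ j ∈ B, j ∈ Opt P k := by
    intro j hj
    rw [hB, BB, mem_filter] at hj
    exact hj.1
  have hBs : ∀ j ∈ B, sc F j = σ := by
    intro j hj
    rw [hB, BB, mem_filter] at hj
    exact hj.2
  -- the sets counted
  set a : Finset α → ℕ := fun S => (B.filter (fun j => S ∈ Ax F j (pt j))).card with ha
  set f : Finset α → ℕ := fun S => (B.filter (fun j => S ∈ Fu F j \ Im F j (pt j))).card with hf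
  set q : Finset α → ℕ :=
    fun S => (B.filter (fun j => j ≠ (tt S).1 ∧ S ∈ Im F j (pt j))).card with hq
  -- every block is counted
  have hcount : ∀ S ∈ V, B.card ≤ a S + f S + q S + 1 := by
    intro S hS
    have hsub : B ⊆ ((B.filter (fun j => S ∈ Ax F j (pt j)) ∪
        B.filter (fun j => S ∈ Fu F j \ Im F j (pt j))) ∪
        B.filter (fun j => j ≠ (tt S).1 ∧ S ∈ Im F j (pt j))) ∪ {(tt S).1} := by
      intro j hj
      by_cases hjt : j = (tt S).1
      · apply mem_union_right
        rw [hjt]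
        exact mem_singleton_self _
      · apply mem_union_left
        have h1 := (htt S hS).pt_mem h hj hjt
        by_cases hjS : j ⊆ S
        · by_cases him : S ∈ Im F j (pt j)
          · apply mem_union_right
            rw [mem_filter]
            exact ⟨hj, hjt, him⟩
          · apply mem_union_left
            apply mem_union_right
            rw [mem_filter, mem_sdiff, mem_Fu]
            exact ⟨hj, ⟨(htt S hS).hS, hjS⟩, him⟩
        · apply mem_union_left
          apply mem_union_left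
          rw [mem_filter, mem_Ax]
          exact ⟨hj, ⟨(htt S hS).hS, hjS⟩, h1⟩
    have h1 := card_le_card hsub
    have h2 := card_union_le ((B.filter (fun j => S ∈ Ax F j (pt j)) ∪
        B.filter (fun j => S ∈ Fu F j \ Im F j (pt j))) ∪
        B.filter (fun j => j ≠ (tt S).1 ∧ S ∈ Im F j (pt j))) {(tt S).1}
    have h3 := card_union_le (B.filter (fun j => S ∈ Ax F j (pt j)) ∪
        B.filter (fun j => S ∈ Fu F j \ Im F j (pt j)))
        (B.filter (fun j => j ≠ (tt S).1 ∧ S ∈ Im F j (pt j)))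
    have h4 := card_union_le (B.filter (fun j => S ∈ Ax F j (pt j)))
        (B.filter (fun j => S ∈ Fu F j \ Im F j (pt j)))
    rw [card_singleton] at h2
    simp only [ha, hf, hq]
    omega
  have ha1 : ∀ S ∈ V, 1 ≤ a S := by
    intro S hS
    apply card_pos.2
    exact ⟨bb F P k (tt S).2, mem_filter.2 ⟨(htt S hS).bb_mem h, (htt S hS).bb_Ax h⟩⟩
  -- the pairs
  set Z := (V ×ˢ B).filter (fun u => u.2 ≠ (tt u.1).1 ∧ u.1 ∈ Im F u.2 (pt u.2)) with hZ
  set φ : Finset α × Finset α → Finset α := fun u => tog F u.2 (pt u.2) u.1 with hφ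
  set Q := Z.image φ with hQ
  have hZmem : ∀ u ∈ Z, u.1 ∈ V ∧ u.2 ∈ B ∧ u.2 ≠ (tt u.1).1 ∧ u.1 ∈ Im F u.2 (pt u.2) := by
    intro u hu
    rw [hZ, mem_filter, mem_product] at hu
    exact ⟨hu.1.1, hu.1.2, hu.2.1, hu.2.2⟩
  have hqsum : ∑ S ∈ V, q S = Z.card := by
    rw [hZ, card_filter, sum_product]
    apply sum_congr rfl
    intro S _
    simp only [hq, card_filter]
  have hZQ : Z.card ≤ 2 * Q.card := by
    apply card_le_mul_card_image Z 2
    intro R hR
    obtain ⟨u0, hu0, hu0R⟩ := mem_image.1 hR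
    obtain ⟨h01, h02, h03, h04⟩ := hZmem u0 hu0
    have h05 := tog_spec h04
    have key : ∀ u ∈ Z.filter (fun u => φ u = R), u.2 ∈ ({u0.2, (tt u0.1).1} : Finset (Finset α)) := by
      intro u hu
      rw [mem_filter] at hu
      obtain ⟨h11, h12, h13, h14⟩ := hZmem u hu.1
      have h15 := (mem_Mx.1 (tog_spec h14).1).2.1
      rw [mem_insert, mem_singleton]
      by_contra hcon
      rw [not_or] at hcon
      have h16 := (htt _ h01).pt_mem h h12 hcon.2
      rw [← h05.2] at h16
      have e1 : tog F u.2 (pt u.2) u.1 = tog F u0.2 (pt u0.2) u0.1 := hu.2.trans hu0R.symm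
      rcases mem_union.1 h16 with h' | h'
      · apply h15
        rw [e1]
        simpa only [h05.2] using h'
      · exact hcon.1 (block_eq h.sys (hBP _ h12) (hBP _ h02) (h.ptp _ (hBO _ h12)) h')
    have hinj : Set.InjOn (fun u : Finset α × Finset α => u.2)
        ((Z.filter (fun u => φ u = R) : Finset (Finset α × Finset α)) :
          Set (Finset α × Finset α)) := by
      intro u hu v hv huv
      rw [mem_coe, mem_filter] at hu hv
      have e1 := (tog_spec (hZmem u hu.1).2.2.2).2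
      have e2 := (tog_spec (hZmem v hv.1).2.2.2).2
      have e3 : tog F u.2 (pt u.2) u.1 = R := hu.2
      have e4 : tog F v.2 (pt v.2) v.1 = R := hv.2
      apply Prod.ext _ huv
      rw [e3] at e1
      rw [e4] at e2
      rw [← e1, ← e2]
      have : u.2 = v.2 := huv
      rw [this]
    calc (Z.filter (fun u => φ u = R)).card
        = ((Z.filter (fun u => φ u = R)).image (fun u => u.2)).card :=
          (card_image_of_injOn hinj).symm
      _ ≤ ({u0.2, (tt u0.1).1} : Finset (Finset α)).card := by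
          apply card_le_card
          intro j hj
          obtain ⟨u, hu, rfl⟩ := mem_image.1 hj
          exact key u hu
      _ ≤ 2 := card_le_two
  -- `V` and `Q` are disjoint
  have hVQ : Disjoint V Q := by
    rw [Finset.disjoint_left]
    intro S hS hSQ
    obtain ⟨u, hu, huS⟩ := mem_image.1 hSQ
    obtain ⟨h11, h12, h13, h14⟩ := hZmem u hu
    obtain ⟨h15, h16⟩ := tog_spec h14
    have h17 : tog F u.2 (pt u.2) u.1 = S := huS
    rw [h17] at h15 h16
    have h18 := htt S hS
    have h19 := T_spec h.sys (TB_T h18.ht)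
    have h20 := htt u.1 h11
    have h21 := T_spec h.sys (TB_T h20.ht)
    have h22 : pt u.2 ∉ (tt S).2 := by
      rw [← h18.eq, mem_union]
      rintro (h' | h')
      · exact (mem_Mx.1 h15).2.1 h'
      · exact notMem_UU h (hBP _ h12) (hBs _ h12).ge (h.ptp _ (hBO _ h12)) h'
    have h23 : u.2 = (tt S).1 := block_eq h.sys (hBP _ h12) h19.hp (h.ptp _ (hBO _ h12))
      (h19.sub (mem_sdiff.2 ⟨h.ptk _ (hBO _ h12), h22⟩))
    obtain ⟨y, hy⟩ := h21.ne
    rw [mem_sdiff] at hy
    apply hy.2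
    rw [← h20.eq, ← h16, mem_union, mem_union]
    by_cases hyS : y ∈ (tt S).2
    · rw [← h18.eq, mem_union] at hyS
      rcases hyS with h' | h'
      · exact Or.inl (Or.inl h')
      · exact Or.inr h'
    · left
      right
      rw [h23]
      exact h19.sub (mem_sdiff.2 ⟨hy.1, hyS⟩)
  have hVF : V ⊆ F := fun S hS => (htt S hS).hS
  have hQF : Q ⊆ F := by
    intro S hS
    obtain ⟨u, hu, rfl⟩ := mem_image.1 hS
    obtain ⟨h11, h12, h13, h14⟩ := hZmem u hu
    exact (mem_Mx.1 (tog_spec h14).1).1.1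
  have hQ1 : ∀ S ∈ Q, 1 ≤ a S := by
    intro S hS
    obtain ⟨u, hu, rfl⟩ := mem_image.1 hS
    obtain ⟨h11, h12, h13, h14⟩ := hZmem u hu
    apply card_pos.2
    exact ⟨bb F P k (tt u.1).2, mem_filter.2 ⟨(htt _ h11).bb_mem h, tog_Ax h (htt _ h11) h12 h14⟩⟩
  set Y := ∑ j ∈ B, (Ax F j (pt j)).card with hY
  set Φ := ∑ j ∈ B, (Fu F j \ Im F j (pt j)).card with hΦ
  have hY1 : ∑ S ∈ V, a S + Q.card ≤ Y := by
    have e1 : Y = ∑ S ∈ F, a S := by
      rw [hY]
      have : ∀ j ∈ B, (Ax F j (pt j)).card = ∑ R ∈ F, if R ∈ Ax F j (pt j) then 1 else 0 := by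
        intro j _
        exact card_sub (fun S hS => (mem_Ax.1 hS).1.1)
      rw [sum_congr rfl this, sum_comm]
      apply sum_congr rfl
      intro S _
      simp only [ha, card_filter]
    have e2 : ∑ S ∈ V ∪ Q, a S ≤ ∑ S ∈ F, a S :=
      sum_le_sum_of_subset (union_subset hVF hQF)
    rw [sum_union hVQ] at e2
    have e3 : Q.card ≤ ∑ S ∈ Q, a S := by
      rw [card_eq_sum_ones]
      exact sum_le_sum hQ1
    omega
  have hΦ1 : ∑ S ∈ V, f S ≤ Φ := by
    have e1 : Φ = ∑ S ∈ F, f S := by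
      rw [hΦ]
      have : ∀ j ∈ B, (Fu F j \ Im F j (pt j)).card =
          ∑ R ∈ F, if R ∈ Fu F j \ Im F j (pt j) then 1 else 0 := by
        intro j _
        exact card_sub (fun S hS => (mem_Fu.1 (mem_sdiff.1 hS).1).1)
      rw [sum_congr rfl this, sum_comm]
      apply sum_congr rfl
      intro S _
      simp only [hf, card_filter]
    rw [e1]
    exact sum_le_sum_of_subset hVF
  have hsum : V.card * B.card ≤ ∑ S ∈ V, a S + ∑ S ∈ V, f S + ∑ S ∈ V, q S + V.card := by
    calc V.card * B.card = ∑ S ∈ V, B.card := by rw [sum_const, smul_eq_mul]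
      _ ≤ ∑ S ∈ V, (a S + f S + q S + 1) := sum_le_sum hcount
      _ = _ := by
        rw [sum_add_distrib, sum_add_distrib, sum_add_distrib, sum_const, smul_eq_mul, mul_one]
  have hVa : V.card ≤ ∑ S ∈ V, a S := by
    rw [card_eq_sum_ones]
    exact sum_le_sum ha1
  have hYΦ : Y + Φ ≤ B.card * 2 ^ (σ + 1) := by
    rw [hY, hΦ, ← sum_add_distrib, ← smul_eq_mul, ← sum_const]
    apply sum_le_sum
    intro j hj
    have h1 := bad_le h.sys.uc (h.sys.gf (h.sys.pg (hBP j hj))) (h.ptp j (hBO j hj))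
      (h.H j (hBP j hj) _ (h.ptp j (hBO j hj)))
    have h2 : z F j < 2 ^ (σ + 1) := by
      rw [← hBs j hj]
      exact Nat.lt_pow_succ_log_self (by norm_num) _
    omega
  have hBpos : 0 < B.card := by
    obtain ⟨S, hS⟩ := hVne
    exact card_pos.2 ⟨_, (htt S hS).bb_mem h⟩
  have hfin : V.card * B.card ≤ (4 * 2 ^ σ) * B.card := by
    have e : (4 * 2 ^ σ) * B.card = 2 * (B.card * 2 ^ (σ + 1)) := by ring
    rw [e]
    omega
  exact Nat.le_of_mul_le_mul_right hfin hBpos

/-- The number of the pairs of type B of scale `σ`. -/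
theorem TB_card (h : Dat F G P k pt c) (σ : ℕ) :
    2 ^ (SL F P k σ).card * (TB F G P k pt σ).card ≤
      4 * 2 ^ σ + (SL F P k σ).card * 2 ^ (σ + 1) := by
  obtain ⟨W, hW1, hW2⟩ := toggle h σ σ le_rfl
  have := V_card h σ W hW1
  omega

end Pool.Agent.N188.UC
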