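import Pool.Agent.N188.UC4

/-!
# Linear bound, part 5: the sum of the costs
-/

set_option autoImplicit false
set_option linter.unusedSectionVars false

namespace Pool.Agent.N188.UC

open Finset
open scoped Classical
open Pool.Agent.N435 (Sys hubs touched Mt)

variable {α : Type*} [DecidableEq α] {F G P : Finset (Finset α)}
  {k : Finset α} {pt : Finset α → α} {c : ℕ → Finset α}

theorem sum_rank (S : Finset ℕ) (f : ℕ → ℝ) (n : ℕ) :
    ∑ σ ∈ S.filter (fun σ => σ < n), f (S.filter (fun τ => τ < σ)).card =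
      ∑ t ∈ range (S.filter (fun σ => σ < n)).card, f t := by
  induction n with
  | zero => simp
  | succ n ih =>
    by_cases hn : n ∈ S
    · have e : S.filter (fun σ => σ < n + 1) = insert n (S.filter (fun σ => σ < n)) := by
        ext m
        simp only [mem_filter, mem_insert]
        constructor
        · rintro ⟨h1, h2⟩
          rcases Nat.lt_succ_iff_lt_or_eq.1 h2 with h | h
          · exact Or.inr ⟨h1, h⟩
          · exact Or.inl h
        · rintro (h | ⟨h1, h2⟩)
          · rw [h]; exact ⟨hn, Nat.lt_succ_self n⟩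
          · exact ⟨h1, by omega⟩
      have hnn : n ∉ S.filter (fun σ => σ < n) := by simp
      rw [e, sum_insert hnn, card_insert_of_notMem hnn, sum_range_succ, ih, add_comm]
    · have e : S.filter (fun σ => σ < n + 1) = S.filter (fun σ => σ < n) := by
        ext m
        simp only [mem_filter]
        constructor
        · rintro ⟨h1, h2⟩
          refine ⟨h1, ?_⟩
          rcases Nat.lt_succ_iff_lt_or_eq.1 h2 with h | h
          · exact h
          · exact absurd (h ▸ h1) hn
        · rintro ⟨h1, h2⟩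
          exact ⟨h1, by omega⟩
      rw [e, ih]

theorem sum_geo (n : ℕ) :
    ∑ t ∈ range n, (4 + 2 * (t : ℝ)) / 2 ^ t = 12 - (12 + 4 * n) / 2 ^ n := by
  induction n with
  | zero => simp
  | succ n ih =>
    rw [sum_range_succ, ih]
    push_cast
    field_simp
    ring

/-- the cost of the pairs of type B -/
theorem B_cost (h : Dat F G P k pt c) :
    ∑ t ∈ (T F G P k).filter (fun t => pt (bb F P k t.2) ∈ t.2), (1 : ℝ) / z F t.1 ≤ 12 := by
  have h1 : ∀ t ∈ (T F G P k).filter (fun t => pt (bb F P k t.2) ∈ t.2),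
      sc F (bb F P k t.2) ∈ SS F P k := by
    intro t ht
    rw [mem_filter] at ht
    exact mem_image_of_mem _ (T_spec h.sys ht.1).bb_opt
  rw [← sum_fiberwise_of_maps_to h1]
  have h2 : ∀ σ ∈ SS F P k, ∑ t ∈ ((T F G P k).filter (fun t => pt (bb F P k t.2) ∈ t.2)).filter
      (fun t => sc F (bb F P k t.2) = σ), (1 : ℝ) / z F t.1 ≤
      (4 + 2 * (((SS F P k).filter (fun τ => τ < σ)).card : ℝ)) /
        2 ^ ((SS F P k).filter (fun τ => τ < σ)).card := by
    intro σ hσ
    rw [filter_filter]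
    have h3 := TB_card h σ
    set m := ((SS F P k).filter (fun τ => τ < σ)).card with hm
    have h4 : (2 : ℝ) ^ m * (TB F G P k pt σ).card ≤ 4 * 2 ^ σ + m * 2 ^ (σ + 1) := by
      have : SL F P k σ = (SS F P k).filter (fun τ => τ < σ) := rfl
      rw [this, ← hm] at h3
      exact_mod_cast h3
    have h5 : ∀ t ∈ TB F G P k pt σ, (1 : ℝ) / z F t.1 ≤ 1 / 2 ^ σ := by
      intro t ht
      have h6 := T_spec h.sys (TB_T ht)
      have h7 := h6.bb_min _ h6.nn
      have h8 := mem_Opt.1 h6.bb_opt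
      have hkF := h.sys.gf h.hk
      have h9 : 0 < z F (bb F P k t.2) :=
        z_pos h.sys.uc (h.sys.gf (h.sys.pg h8.1)) (h.H _ h8.1) hkF h8.2.1 h8.2.2
      have h10 : 2 ^ σ ≤ z F (bb F P k t.2) := by
        have := (mem_filter.1 ht).2.2
        rw [← this]
        exact Nat.pow_log_le_self 2 h9.ne'
      have h11 : (2 : ℝ) ^ σ ≤ z F t.1 := by exact_mod_cast h10.trans h7
      exact one_div_le_one_div_of_le (by positivity) h11
    have h12 : ∑ t ∈ TB F G P k pt σ, (1 : ℝ) / z F t.1 ≤ (TB F G P k pt σ).card * (1 / 2 ^ σ) := by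
      calc _ ≤ ∑ t ∈ TB F G P k pt σ, (1 : ℝ) / 2 ^ σ := sum_le_sum h5
        _ = _ := by rw [sum_const, nsmul_eq_mul]
    refine le_trans h12 ?_
    rw [mul_one_div, div_le_div_iff₀ (by positivity) (by positivity)]
    have e : (4 + 2 * (m : ℝ)) * 2 ^ σ = 4 * 2 ^ σ + m * 2 ^ (σ + 1) := by
      rw [pow_succ]
      ring
    rw [e, mul_comm]
    exact h4
  refine le_trans (sum_le_sum h2) ?_
  have h13 : (SS F P k) = (SS F P k).filter (fun σ => σ < (SS F P k).sup id + 1) := by
    ext σ
    rw [mem_filter]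
    constructor
    · intro hσ
      exact ⟨hσ, Nat.lt_succ_of_le (le_sup (f := id) hσ)⟩
    · exact fun hσ => hσ.1
  have h14 := sum_rank (SS F P k) (fun t => (4 + 2 * (t : ℝ)) / 2 ^ t) ((SS F P k).sup id + 1)
  rw [← h13] at h14
  rw [h14, sum_geo]
  generalize (SS F P k).card = N
  have : (0 : ℝ) ≤ (12 + 4 * (N : ℝ)) / 2 ^ N := by positivity
  linarith

/-- the cost of a label -/
theorem label_cost (h : Sys F G P)
    (H : ∀ p ∈ P, ∀ y ∈ p, 2 * (F.filter (fun S => y ∈ S)).card ≤ F.card) (k : Finset α) :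
    ∑ t ∈ T F G P k, (1 : ℝ) / z F t.1 ≤ 15 := by
  rcases (T F G P k).eq_empty_or_nonempty with h0 | ⟨t0, ht0⟩
  · rw [h0, sum_empty]
    norm_num
  have h1 := T_spec h ht0
  obtain ⟨x0, hx0⟩ := h1.ne
  have : Nonempty α := ⟨x0⟩
  have hpt : ∀ p ∈ Opt P k, ∃ x, x ∈ p ∧ x ∈ k := by
    intro p hp
    obtain ⟨x, hx, hx'⟩ := not_disjoint_iff.1 (mem_Opt.1 hp).2.1
    exact ⟨x, hx, hx'⟩
  choose! pt hpt1 hpt2 using hpt
  have hc : ∀ σ ∈ (Opt P k).image (sc F), ∃ p, p ∈ Opt P k ∧ sc F p = σ := by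
    intro σ hσ
    obtain ⟨p, hp, hps⟩ := mem_image.1 hσ
    exact ⟨p, hp, hps⟩
  choose! c hc1 hc2 using hc
  have hD : Dat F G P k pt c := ⟨h, H, h1.hk, hpt1, hpt2, hc1, hc2⟩
  have h2 := B_cost hD
  have h3 := A_cost h H h1.hk pt hpt2
  have h4 := sum_filter_add_sum_filter_not (T F G P k) (fun t => pt (bb F P k t.2) ∈ t.2)
    (fun t => (1 : ℝ) / z F t.1)
  rw [← h4]
  linarith

/-- The linear bound, all blocks being touched. -/
theorem card_le (h : Sys F G P)
    (H : ∀ p ∈ P, ∀ y ∈ p, 2 * (F.filter (fun S => y ∈ S)).card ≤ F.card)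
    (hz : ∀ p ∈ P, 0 < z F p) : P.card ≤ 15 * (hubs G P).card := by
  set TT := (P ×ˢ F).filter (fun t => t.2 ∈ X F t.1) with hTT
  have h1 : ∑ t ∈ TT, (1 : ℝ) / z F t.1 = P.card := by
    rw [hTT, sum_filter, sum_product]
    have : ∀ p ∈ P, ∑ M ∈ F, (if M ∈ X F p then (1 : ℝ) / z F p else 0) = 1 := by
      intro p hp
      rw [← sum_filter, sum_const, nsmul_eq_mul]
      have e : F.filter (fun M => M ∈ X F p) = X F p := by
        ext M
        rw [mem_filter]
        constructor
        · exact fun h' => h'.2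
        · exact fun h' => ⟨(mem_X.1 h').1.1, h'⟩
      rw [e]
      have := hz p hp
      unfold z at this ⊢
      have : ((X F p).card : ℝ) ≠ 0 := by exact_mod_cast this.ne'
      field_simp
    simp only at this ⊢
    rw [sum_congr rfl this, sum_const, nsmul_eq_mul, mul_one]
  have h2 : ∀ t ∈ TT, lab G t.1 t.2 ∈ hubs G P := by
    intro t ht
    rw [hTT, mem_filter, mem_product] at ht
    have h3 : t ∈ T F G P (lab G t.1 t.2) := by
      simp only [T, mem_filter, mem_product]
      exact ⟨ht.1, ht.2, trivial⟩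
    have h4 := T_spec h h3
    simp only [hubs, mem_filter]
    exact ⟨h4.hk, t.1, h4.hp, (mem_Opt.1 h4.opt).2⟩
  have h5 : (P.card : ℝ) ≤ 15 * (hubs G P).card := by
    rw [← h1, ← sum_fiberwise_of_maps_to h2]
    calc _ ≤ ∑ k ∈ hubs G P, (15 : ℝ) := by
          apply sum_le_sum
          intro k _
          have e : TT.filter (fun t => lab G t.1 t.2 = k) = T F G P k := by
            rw [hTT, filter_filter]
            rfl
          rw [e]
          exact label_cost h H k
      _ = _ := by rw [sum_const, nsmul_eq_mul, mul_comm]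
  exact_mod_cast h5

/-- The linear bound on the number of the blocks met partially by some generator. -/
theorem touched_le (h : Sys F G P)
    (H : ∀ p ∈ P, ∀ y ∈ p, 2 * (F.filter (fun S => y ∈ S)).card ≤ F.card) :
    (touched G P).card ≤ 15 * (hubs G P).card := by
  have hsub : touched G P ⊆ P := filter_subset _ _
  have h1 : Sys F G (touched G P) :=
    ⟨h.uc, h.gf, h.gen, hsub.trans h.pg, fun p hp q hq => h.disj p (hsub hp) q (hsub hq),
      fun p hp => h.ne p (hsub hp)⟩
  have h2 := card_le h1 (fun p hp => H p (hsub hp)) (by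
    intro p hp
    simp only [touched, mem_filter] at hp
    obtain ⟨hp, k, hk, hk1, hk2⟩ := hp
    exact z_pos h.uc (h.gf (h.pg hp)) (H p hp) (h.gf hk) hk1 hk2)
  refine h2.trans (Nat.mul_le_mul_left _ (card_le_card ?_))
  intro k hk
  simp only [hubs, Mt, mem_filter] at hk ⊢
  obtain ⟨hk, p, hp, hk'⟩ := hk
  exact ⟨hk, p, hsub hp, hk'⟩

/-- If there are more than 15 times as many blocks as hubs, some block is met partially by no
generator. -/
theorem exists_untouched (h : Sys F G P)
    (H : ∀ p ∈ P, ∀ y ∈ p, 2 * (F.filter (fun S => y ∈ S)).card ≤ F.card)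
    (hP : 15 * (hubs G P).card < P.card) :
    ∃ p ∈ P, ∀ q ∈ G, Disjoint p q ∨ p ⊆ q := by
  have h1 := touched_le h H
  have h3 : ∃ p ∈ P, p ∉ touched G P := by
    by_contra hcon
    push Not at hcon
    have := card_le_card (show P ⊆ touched G P from hcon)
    omega
  obtain ⟨p, hp, hpt⟩ := h3
  refine ⟨p, hp, ?_⟩
  intro q hq
  by_contra hcon
  rw [not_or] at hcon
  apply hpt
  simp only [touched, mem_filter]
  exact ⟨hp, q, hq, hcon.1, hcon.2⟩

end Pool.Agent.N188.UC
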