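import Pool.Agent.N188.UC5

/-!
# Dense families: a maximum matching of intersecting generators
-/

set_option autoImplicit false
set_option linter.unusedSectionVars false

namespace Pool.Agent.N188.UC

open Finset
open scoped Classical
open Pool.Agent.N435 (Sys hubs touched Mt PairSys nonisol)

variable {α : Type*} [DecidableEq α]

theorem pair_insert {G : Finset (Finset α)} {M : Finset (Finset (Finset α))} (h : PairSys G M)
    {e : Finset (Finset α)} (h1 : e.card = 2) (h2 : e ⊆ G) (h3 : ∃ x, ∀ p ∈ e, x ∈ p)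
    (h4 : ∀ f ∈ M, Disjoint e f) : PairSys G (insert e M) ∧ (insert e M).card = M.card + 1 := by
  have hne : e ∉ M := by
    intro he
    have := h4 e he
    rw [disjoint_self] at this
    rw [this] at h1
    simp at h1
  refine ⟨⟨?_, ?_, ?_, ?_⟩, card_insert_of_notMem hne⟩
  · intro f hf
    rcases mem_insert.1 hf with rfl | hf
    · exact h1
    · exact h.two f hf
  · intro f hf
    rcases mem_insert.1 hf with rfl | hf
    · exact h2
    · exact h.sub f hf
  · intro f hf
    rcases mem_insert.1 hf with rfl | hf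
    · exact h3
    · exact h.com f hf
  · intro f hf g hg hfg
    rcases mem_insert.1 hf with h5 | h5 <;> rcases mem_insert.1 hg with h6 | h6
    · exact absurd (h5.trans h6.symm) hfg
    · rw [h5]; exact h4 g h6
    · rw [h6]; exact (h4 f h5).symm
    · exact h.dis f h5 g h6 hfg

theorem pair_erase {G : Finset (Finset α)} {M : Finset (Finset (Finset α))} (h : PairSys G M)
    (e : Finset (Finset α)) : PairSys G (M.erase e) :=
  ⟨fun f hf => h.two f (mem_of_mem_erase hf), fun f hf => h.sub f (mem_of_mem_erase hf),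
    fun f hf => h.com f (mem_of_mem_erase hf),
    fun f hf g hg => h.dis f (mem_of_mem_erase hf) g (mem_of_mem_erase hg)⟩

/-- A maximum system of disjoint pairs of intersecting generators. -/
theorem exists_max (G : Finset (Finset α)) : ∃ M, PairSys G M ∧
    (∀ p ∈ G \ M.biUnion id, ∀ q ∈ G \ M.biUnion id, p ≠ q → Disjoint p q) ∧
    ∀ e ∈ M, ∀ p ∈ e, ∀ q ∈ e, p ≠ q → ∀ u ∈ G \ M.biUnion id, ∀ v ∈ G \ M.biUnion id, u ≠ v →
      ¬ Disjoint p u → ¬ Disjoint q v → False := by
  set X := (G.powerset.powerset).filter (fun M => PairSys G M) with hX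
  have hXmem : ∀ M, PairSys G M → M ∈ X := by
    intro M hM
    rw [hX, mem_filter, mem_powerset]
    refine ⟨?_, hM⟩
    intro e he
    rw [mem_powerset]
    exact hM.sub e he
  have hne : X.Nonempty := ⟨∅, hXmem ∅ ⟨by simp, by simp, by simp, by simp⟩⟩
  obtain ⟨M, hM, hmax⟩ := exists_max_image X (fun M => M.card) hne
  rw [hX, mem_filter] at hM
  have hP := hM.2
  have hout : ∀ u ∈ G \ M.biUnion id, ∀ e ∈ M, u ∉ e := by
    intro u hu e he hue
    exact (mem_sdiff.1 hu).2 (mem_biUnion.2 ⟨e, he, hue⟩)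
  have hcom : ∀ p q : Finset α, ¬ Disjoint p q → ∃ x, ∀ r ∈ ({p, q} : Finset (Finset α)), x ∈ r := by
    intro p q hpq
    obtain ⟨x, hx, hx'⟩ := not_disjoint_iff.1 hpq
    refine ⟨x, ?_⟩
    intro r hr
    rw [mem_insert, mem_singleton] at hr
    rcases hr with rfl | rfl
    · exact hx
    · exact hx'
  refine ⟨M, hP, ?_, ?_⟩
  · intro p hp q hq hpq
    by_contra hd
    have h1 := pair_insert hP (card_pair hpq) (by
      intro z hz
      rw [mem_insert, mem_singleton] at hz
      rcases hz with rfl | rfl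
      · exact (mem_sdiff.1 hp).1
      · exact (mem_sdiff.1 hq).1) (hcom p q hd) (by
      intro f hf
      rw [Finset.disjoint_left]
      intro z hz
      rw [mem_insert, mem_singleton] at hz
      rcases hz with rfl | rfl
      · exact hout _ hp f hf
      · exact hout _ hq f hf)
    have h2 := hmax _ (hXmem _ h1.1)
    omega
  · intro e he p hp q hq hpq u hu v hv huv hpu hqv
    have h1 := pair_erase hP e
    have hpe : ∀ f ∈ M.erase e, p ∉ f ∧ q ∉ f := by
      intro f hf
      rw [mem_erase] at hf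
      have := hP.dis e he f hf.2 (Ne.symm hf.1)
      exact ⟨fun h' => Finset.disjoint_left.1 this hp h',
        fun h' => Finset.disjoint_left.1 this hq h'⟩
    have hpu' : p ≠ u := by
      rintro rfl
      exact hout _ hu e he hp
    have hqu' : q ≠ u := by
      rintro rfl
      exact hout _ hu e he hq
    have hqv' : q ≠ v := by
      rintro rfl
      exact hout _ hv e he hq
    have hpv' : p ≠ v := by
      rintro rfl
      exact hout _ hv e he hp
    have h2 := pair_insert h1 (card_pair hpu') (by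
      intro z hz
      rw [mem_insert, mem_singleton] at hz
      rcases hz with rfl | rfl
      · exact hP.sub e he hp
      · exact (mem_sdiff.1 hu).1) (hcom p u hpu) (by
      intro f hf
      rw [Finset.disjoint_left]
      intro z hz
      rw [mem_insert, mem_singleton] at hz
      rcases hz with rfl | rfl
      · exact (hpe f hf).1
      · exact hout _ hu f (mem_of_mem_erase hf))
    have h3 := pair_insert h2.1 (card_pair hqv') (by
      intro z hz
      rw [mem_insert, mem_singleton] at hz
      rcases hz with rfl | rfl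
      · exact hP.sub e he hq
      · exact (mem_sdiff.1 hv).1) (hcom q v hqv) (by
      intro f hf
      rw [Finset.disjoint_left]
      intro z hz
      rw [mem_insert, mem_singleton] at hz
      rcases mem_insert.1 hf with hf | hf
      · rw [hf, mem_insert, mem_singleton]
        rcases hz with rfl | rfl
        · rintro (h' | h')
          · exact hpq h'.symm
          · exact hqu' h'
        · rintro (h' | h')
          · exact hpv' h'.symm
          · exact huv h'.symm
      · rcases hz with rfl | rfl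
        · exact (hpe f hf).2
        · exact hout _ hv f (mem_of_mem_erase hf))
    have h4 := hmax _ (hXmem _ h3.1)
    have h5 := card_erase_of_mem he
    have h6 : 0 < M.card := card_pos.2 ⟨e, he⟩
    have h7 := h2.2
    have h8 := h3.2
    omega

/-- Dense families: if every element lies in at most half of the members, some generator meeting
another one is met partially by no generator. -/
theorem dense {F G : Finset (Finset α)} (uc : ∀ S ∈ F, ∀ T ∈ F, S ∪ T ∈ F) (gf : G ⊆ F)
    (gen : ∀ S ∈ F, ∀ x ∈ S, ∃ q ∈ G, x ∈ q ∧ q ⊆ S) (ne : ∀ p ∈ G, p.Nonempty)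
    (G1 : Finset (Finset α)) (hG1 : nonisol G ⊆ G1) (hG1' : G1 ⊆ G) (hne : G1.Nonempty)
    (hm : (2 : ℝ) ^ ((G.card : ℝ) - (G1.card : ℝ) / 82) ≤ F.card)
    (H : ∀ x, 2 * (F.filter (fun S => x ∈ S)).card ≤ F.card) :
    ∃ p ∈ G1, ∀ q ∈ G, Disjoint p q ∨ p ⊆ q := by
  obtain ⟨M, hM, hdis, hex⟩ := exists_max G
  have hd := Pool.Agent.N435.density gen hM H
  have hcard := Pool.Agent.N435.matching_card hM
  set t := M.card with ht
  -- the number of the pairs
  have h17 : 17 * t < G1.card := by
    by_contra hcon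
    push Not at hcon
    have hG1p : 0 < G1.card := card_pos.2 hne
    have htp : 0 < t := by omega
    have h3 : ((2 : ℝ) ^ ((G.card : ℝ) - (G1.card : ℝ) / 82)) ^ 2 ≤ (F.card : ℝ) ^ 2 :=
      pow_le_pow_left₀ (by positivity) hm 2
    have h4 : ((2 : ℝ) ^ ((G.card : ℝ) - (G1.card : ℝ) / 82)) ^ 2 * (4 / 3) ^ t ≤
        (2 ^ G.card) ^ 2 := (mul_le_mul_of_nonneg_right h3 (by positivity)).trans hd
    have h5 : (2 : ℝ) ^ ((G.card : ℝ) - (G1.card : ℝ) / 82) =
        2 ^ G.card / 2 ^ ((G1.card : ℝ) / 82) := by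
      rw [Real.rpow_sub (by norm_num), Real.rpow_natCast]
    rw [h5, div_pow, div_mul_eq_mul_div, div_le_iff₀ (by positivity)] at h4
    have h6 : ((4 : ℝ) / 3) ^ t ≤ (2 ^ ((G1.card : ℝ) / 82)) ^ 2 := by
      have hp : (0 : ℝ) < (2 ^ G.card) ^ 2 := by positivity
      exact le_of_mul_le_mul_left h4 hp
    have h7 := Real.log_le_log (by positivity) h6
    rw [Real.log_pow, Real.log_pow, Real.log_rpow (by norm_num)] at h7
    have h8 : 17 * Real.log 2 < 41 * Real.log (4 / 3) := by
      have : Real.log ((2 : ℝ) ^ 17) < Real.log ((4 / 3 : ℝ) ^ 41) :=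
        Real.log_lt_log (by norm_num) (by norm_num)
      rw [Real.log_pow, Real.log_pow] at this
      exact_mod_cast this
    have h9 : 0 < Real.log 2 := Real.log_pos (by norm_num)
    have h10 : (G1.card : ℝ) ≤ 17 * t := by exact_mod_cast hcon
    have h11 : (0 : ℝ) < t := by exact_mod_cast htp
    push_cast at h7
    have h12 : 2 * ((G1.card : ℝ) / 82 * Real.log 2) ≤ t * (17 * Real.log 2) / 41 := by
      have : (G1.card : ℝ) * Real.log 2 ≤ 17 * t * Real.log 2 :=
        mul_le_mul_of_nonneg_right h10 h9.le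
      linarith
    have h13 : (t : ℝ) * (17 * Real.log 2) < t * (41 * Real.log (4 / 3)) :=
      mul_lt_mul_of_pos_left h8 h11
    linarith
  have hMG : M.biUnion id ⊆ G1 := by
    intro p hp
    obtain ⟨e, he, hpe⟩ := mem_biUnion.1 hp
    simp only [id] at hpe
    apply hG1
    obtain ⟨x, hx⟩ := hM.com e he
    obtain ⟨a, b, hab, heab⟩ := card_eq_two.1 (hM.two e he)
    simp only [nonisol, mem_filter]
    refine ⟨hM.sub e he hpe, ?_⟩
    rw [heab, mem_insert, mem_singleton] at hpe
    have ha : a ∈ e := by rw [heab]; simp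
    have hb : b ∈ e := by rw [heab]; simp
    rcases hpe with rfl | rfl
    · exact ⟨b, hM.sub e he hb, hab.symm, not_disjoint_iff.2 ⟨x, hx _ ha, hx _ hb⟩⟩
    · exact ⟨a, hM.sub e he ha, hab, not_disjoint_iff.2 ⟨x, hx _ hb, hx _ ha⟩⟩
  -- the generators outside the pairs
  set I := G1 \ M.biUnion id with hI
  have hIG : I ⊆ G \ M.biUnion id := sdiff_subset_sdiff hG1' Subset.rfl
  set wit : Finset (Finset α) → Finset α → Prop := fun e u =>
    ∃ p ∈ e, ∃ q ∈ e, p ≠ q ∧ ¬ Disjoint p u ∧ ¬ Disjoint q u with hwit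
  set I2 := I.filter (fun u => ∃ e ∈ M, wit e u) with hI2
  set P := I \ I2 with hP
  have hI2I : I2 ⊆ I := filter_subset _ _
  have hPI : P ⊆ I := sdiff_subset
  have hsys : Sys F G P := by
    refine ⟨uc, gf, gen, hPI.trans (sdiff_subset.trans hG1'), ?_, fun p hp => ne p (hG1' (sdiff_subset (hPI hp)))⟩
    intro p hp q hq hpq
    exact hdis p (hIG (hPI hp)) q (hIG (hPI hq)) hpq
  -- the hubs lie in the pairs
  have hhub : ∀ k ∈ hubs G P, ∃ e ∈ M, k ∈ e ∧ ∃ p ∈ P, ¬ Disjoint k p := by
    intro k hk
    simp only [hubs, Mt, mem_filter] at hk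
    obtain ⟨hkG, p, hp, hk1, hk2⟩ := hk
    have hkM : k ∈ M.biUnion id := by
      by_contra hcon
      have hpk : p ≠ k := by
        rintro rfl
        exact hk2 Subset.rfl
      exact hk1 (hdis p (hIG (hPI hp)) k (mem_sdiff.2 ⟨hkG, hcon⟩) hpk)
    obtain ⟨e, he, hke⟩ := mem_biUnion.1 hkM
    exact ⟨e, he, hke, p, hp, fun h' => hk1 h'.symm⟩
  -- every pair is responsible for at most one hub or one removed generator
  set R : Finset (Finset α) → Finset (Finset α) := fun e =>
    (hubs G P).filter (fun k => k ∈ e) ∪ I.filter (fun u => wit e u) with hR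
  have hR1 : ∀ e ∈ M, (R e).card ≤ 1 := by
    intro e he
    have hpair : ∀ p ∈ e, ∃ q ∈ e, q ≠ p := by
      intro p hp
      obtain ⟨a, b, hab, heab⟩ := card_eq_two.1 (hM.two e he)
      rw [heab, mem_insert, mem_singleton] at hp
      rcases hp with rfl | rfl
      · exact ⟨b, by rw [heab]; simp, hab.symm⟩
      · exact ⟨a, by rw [heab]; simp, hab⟩
    have hP2 : ∀ p ∈ P, ¬ wit e p := by
      intro p hp hw
      rw [hP, mem_sdiff] at hp
      exact hp.2 (mem_filter.2 ⟨hp.1, e, he, hw⟩)
    have c1 : ∀ k ∈ (hubs G P).filter (fun k => k ∈ e), ∀ k' ∈ (hubs G P).filter (fun k => k ∈ e),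
        k = k' := by
      intro k hk k' hk'
      rw [mem_filter] at hk hk'
      by_contra hne
      obtain ⟨-, -, -, p, hp, hkp⟩ := hhub k hk.1
      obtain ⟨-, -, -, p', hp', hkp'⟩ := hhub k' hk'.1
      by_cases hpp : p = p'
      · rw [← hpp] at hkp'
        exact hP2 p hp ⟨k, hk.2, k', hk'.2, hne, hkp, hkp'⟩
      · exact hex e he k hk.2 k' hk'.2 hne p (hIG (hPI hp)) p' (hIG (hPI hp')) hpp hkp hkp'
    have c2 : ∀ k ∈ (hubs G P).filter (fun k => k ∈ e), ∀ u ∈ I.filter (fun u => wit e u),
        False := by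
      intro k hk u hu
      rw [mem_filter] at hk hu
      obtain ⟨-, -, -, p, hp, hkp⟩ := hhub k hk.1
      have hpu : p ≠ u := by
        rintro rfl
        exact hP2 p hp hu.2
      obtain ⟨a, ha, b, hb, hab, hau, hbu⟩ := hu.2
      by_cases hka : k = a
      · rw [hka] at hkp
        exact hex e he a ha b hb hab p (hIG (hPI hp)) u (hIG hu.1) hpu hkp hbu
      · exact hex e he k hk.2 a ha hka p (hIG (hPI hp)) u (hIG hu.1) hpu hkp hau
    have c3 : ∀ u ∈ I.filter (fun u => wit e u), ∀ v ∈ I.filter (fun u => wit e u), u = v := by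
      intro u hu v hv
      rw [mem_filter] at hu hv
      by_contra huv
      obtain ⟨a, ha, b, hb, hab, hau, hbu⟩ := hu.2
      obtain ⟨c, hc, d, hd', hcd, hcv, hdv⟩ := hv.2
      by_cases hac : a = c
      · exact hex e he a ha d hd' (by rw [hac]; exact hcd) u (hIG hu.1) v (hIG hv.1) huv hau hdv
      · exact hex e he a ha c hc hac u (hIG hu.1) v (hIG hv.1) huv hau hcv
    rw [card_le_one]
    intro a ha b hb
    rcases mem_union.1 ha with ha | ha <;> rcases mem_union.1 hb with hb | hb
    · exact c1 a ha b hb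
    · exact absurd (c2 a ha b hb) not_false
    · exact absurd (c2 b hb a ha) not_false
    · exact c3 a ha b hb
  have hcount : (hubs G P).card + I2.card ≤ t := by
    have hdj : Disjoint (hubs G P) I2 := by
      rw [Finset.disjoint_left]
      intro k hk hk2
      obtain ⟨e, he, hke, -⟩ := hhub k hk
      exact (mem_sdiff.1 (hI2I hk2)).2 (mem_biUnion.2 ⟨e, he, hke⟩)
    rw [← card_union_of_disjoint hdj]
    have hsub : hubs G P ∪ I2 ⊆ M.biUnion R := by
      intro k hk
      rcases mem_union.1 hk with hk | hk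
      · obtain ⟨e, he, hke, -⟩ := hhub k hk
        exact mem_biUnion.2 ⟨e, he, mem_union_left _ (mem_filter.2 ⟨hk, hke⟩)⟩
      · rw [hI2, mem_filter] at hk
        obtain ⟨hkI, e, he, hw⟩ := hk
        exact mem_biUnion.2 ⟨e, he, mem_union_right _ (mem_filter.2 ⟨hkI, hw⟩)⟩
    calc _ ≤ (M.biUnion R).card := card_le_card hsub
      _ ≤ ∑ e ∈ M, (R e).card := card_biUnion_le
      _ ≤ ∑ e ∈ M, 1 := sum_le_sum hR1
      _ = t := by rw [sum_const, smul_eq_mul, mul_one]
  have hPcard : P.card + I2.card + 2 * t = G1.card := by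
    have e1 : P.card + I2.card = I.card := card_sdiff_add_card_eq_card hI2I
    have e2 : I.card + (M.biUnion id).card = G1.card := card_sdiff_add_card_eq_card hMG
    omega
  obtain ⟨p, hp, hpu⟩ := exists_untouched hsys (fun p _ y _ => H y) (by omega)
  exact ⟨p, sdiff_subset (hPI hp), hpu⟩

end Pool.Agent.N188.UC
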