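import Pool.Agent.N188.UC6

/-!
# The crossing theorem

`F` is a union-closed family containing the empty set, `P` a system of pairwise disjoint nonempty
members, and more than 15 times as many as the union-irreducible members crossing a set of `P`. Then
some element of a set in `P` lies in more than half of the members, or some `p ∈ P` splits off.
-/

set_option autoImplicit false
set_option linter.unusedSectionVars false

namespace Pool.Agent.N188.UC

open Finset
open scoped Classical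
open Pool.Agent.N435 (Sys hubs touched Mt irr_gen union_insert filter_insert_empty)

variable {α : Type*} [DecidableEq α]

/-- The crossing theorem for `A ∪ {∅}`. -/
theorem crossing (A P I : Finset (Finset α)) (hunion : ∀ X ∈ A, ∀ Y ∈ A, X ∪ Y ∈ A)
    (hI : ∀ q, q ∈ I ↔ q ∈ A ∧ q.Nonempty ∧ ∀ X ∈ A, ∀ Y ∈ A, X ∪ Y = q → X = q ∨ Y = q)
    (hP : P ⊆ A) (hne : ∀ p ∈ P, p.Nonempty)
    (hdisj : ∀ p ∈ P, ∀ q ∈ P, p ≠ q → Disjoint p q)
    (hcard : 15 * (I.filter (fun k => ∃ p ∈ P, ¬ Disjoint p k ∧ ¬ p ⊆ k)).card < P.card)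
    (H : ∀ p ∈ P, ∀ y ∈ p, 2 * (A.filter (fun S => y ∈ S)).card ≤ (insert ∅ A).card) :
    ∃ p ∈ P, (∀ q ∈ I, Disjoint p q ∨ p ⊆ q) ∧
      (∀ y ∈ p, 2 * (A.filter (fun S => y ∈ S)).card = (insert ∅ A).card) ∧
      ∀ S ∈ insert ∅ A, p ⊆ S → S \ p ∈ insert ∅ A := by
  have hIA : I ⊆ A := fun q hq => ((hI q).1 hq).1
  have hsys : Sys (insert ∅ A) (I ∪ P) P := by
    refine ⟨union_insert hunion, ?_, ?_, subset_union_right, hdisj, hne⟩
    · exact (union_subset hIA hP).trans (subset_insert _ _)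
    · intro S hS x hx
      rcases mem_insert.1 hS with rfl | hS
      · exact absurd hx (notMem_empty x)
      · obtain ⟨q, hq, hq', hxq, hqS⟩ := irr_gen A S hS x hx
        exact ⟨q, mem_union_left _ ((hI q).2 ⟨hq, hq'⟩), hxq, hqS⟩
  have hhubs : hubs (I ∪ P) P ⊆ I.filter (fun k => ∃ p ∈ P, ¬ Disjoint p k ∧ ¬ p ⊆ k) := by
    intro k hk
    simp only [hubs, Mt, mem_filter] at hk
    obtain ⟨hk, p, hp, hk1, hk2⟩ := hk
    rw [mem_filter]
    rcases mem_union.1 hk with h | h
    · exact ⟨h, p, hp, hk1, hk2⟩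
    · exfalso
      apply hk1
      apply hdisj p hp k h
      rintro rfl
      exact hk2 Subset.rfl
  have hc := card_le_card hhubs
  obtain ⟨p, hp, hu⟩ := exists_untouched hsys
    (fun p hp y hy => by
      rw [filter_insert_empty]
      exact H p hp y hy) (by omega)
  refine ⟨p, hp, fun q hq => hu q (mem_union_left _ hq), ?_, ?_⟩
  · intro y hy
    have h1 := (Pool.Agent.N435.untouched hsys hp hu hy).1
    rw [filter_insert_empty] at h1
    have h2 := H p hp y hy
    omega
  · obtain ⟨y, hy⟩ := hne p hp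
    have h1 := (Pool.Agent.N435.untouched hsys hp hu hy).2
    rw [filter_insert_empty] at h1
    exact h1 (H p hp y hy)

/-- Dense families: if every element lies in at most half of the members, some irreducible member
meeting another one is disjoint from all others -/
theorem dense_irr (A G G1 : Finset (Finset α)) (hA : ∀ X ∈ A, ∀ Y ∈ A, X ∪ Y ∈ A)
    (hG : ∀ q, q ∈ G ↔ q ∈ A ∧ q.Nonempty ∧ ∀ X ∈ A, ∀ Y ∈ A, X ∪ Y = q → X = q ∨ Y = q)
    (hG1 : ∀ p ∈ G, (∃ q ∈ G, q ≠ p ∧ ¬ Disjoint p q) → p ∈ G1) (hG1' : G1 ⊆ G)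
    (hne : G1.Nonempty)
    (hm : (2 : ℝ) ^ ((G.card : ℝ) - (G1.card : ℝ) / 82) ≤ (insert ∅ A).card)
    (H : ∀ x, 2 * (A.filter (fun S => x ∈ S)).card ≤ (insert ∅ A).card) :
    ∃ p ∈ G1, (∀ q ∈ G, q ≠ p → Disjoint p q) ∧
      ∀ y ∈ p, (insert ∅ A).card = 2 * (A.filter (fun S => y ∈ S)).card := by
  have hGA : G ⊆ A := fun q hq => ((hG q).1 hq).1
  have gf : G ⊆ insert ∅ A := hGA.trans (subset_insert _ _)
  have ne : ∀ p ∈ G, p.Nonempty := fun p hp => ((hG p).1 hp).2.1
  have gen : ∀ S ∈ insert ∅ A, ∀ x ∈ S, ∃ q ∈ G, x ∈ q ∧ q ⊆ S := by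
    intro S hS x hx
    rcases mem_insert.1 hS with rfl | hS
    · exact absurd hx (notMem_empty x)
    · obtain ⟨q, hq, hq', hq''⟩ := irr_gen A S hS x hx
      exact ⟨q, (hG q).2 ⟨hq, hq'⟩, hq''⟩
  have H' : ∀ x, 2 * ((insert ∅ A).filter (fun S => x ∈ S)).card ≤ (insert ∅ A).card := by
    intro x
    rw [filter_insert_empty]
    exact H x
  have hG1'' : Pool.Agent.N435.nonisol G ⊆ G1 := by
    intro p hp
    simp only [Pool.Agent.N435.nonisol, mem_filter] at hp
    exact hG1 p hp.1 hp.2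
  obtain ⟨p, hp, hu⟩ := dense (union_insert hA) gf gen ne G1 hG1'' hG1' hne hm H'
  have hpG := hG1' hp
  have hsys : Sys (insert ∅ A) G {p} := by
    refine ⟨union_insert hA, gf, gen, by simpa using hpG, ?_, ?_⟩
    · intro a ha b hb hab
      rw [mem_singleton] at ha hb
      exact absurd (ha.trans hb.symm) hab
    · intro a ha
      rw [mem_singleton] at ha
      rw [ha]
      exact ne p hpG
  have key : ∀ y ∈ p, (insert ∅ A).card = 2 * (A.filter (fun S => y ∈ S)).card ∧
      ∀ S ∈ insert ∅ A, p ⊆ S → S \ p ∈ insert ∅ A := by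
    intro y hy
    have h1 := Pool.Agent.N435.untouched hsys (mem_singleton_self p) hu hy
    rw [filter_insert_empty] at h1
    exact ⟨le_antisymm h1.1 (H y), h1.2 (H y)⟩
  refine ⟨p, hp, ?_, fun y hy => (key y hy).1⟩
  intro q hq hqp
  rcases hu q hq with h' | h'
  · exact h'
  · exfalso
    obtain ⟨y, hy⟩ := ne p hpG
    have h1 := (key y hy).2 q (gf hq) h'
    have hq2 := (hG q).1 hq
    have hnee : (q \ p) ≠ ∅ := by
      intro h0
      rw [sdiff_eq_empty_iff_subset] at h0
      exact hqp (subset_antisymm h0 h')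
    have h2 : q \ p ∈ A := by
      rcases mem_insert.1 h1 with h0 | h0
      · exact absurd h0 hnee
      · exact h0
    rcases hq2.2.2 (q \ p) h2 p (hGA hpG) (sdiff_union_of_subset h') with h3 | h3
    · have : y ∈ q \ p := by rw [h3]; exact h' hy
      exact (mem_sdiff.1 this).2 hy
    · exact hqp h3.symm

end Pool.Agent.N188.UC
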